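import Mathlib

set_option autoImplicit false

namespace Pool.Agent.Results.MP_816335_an.NoSyndetic

open Topology

def TopTransitive {X : Type} [TopologicalSpace X] (T : X → X) : Prop :=
  ∀ U V : Set X, IsOpen U → IsOpen V → U.Nonempty → V.Nonempty →
    ∃ n, 1 ≤ n ∧ (U ∩ T^[n] ⁻¹' V).Nonempty

def TotallyTransitive {X : Type} [TopologicalSpace X] (T : X → X) : Prop :=
  ∀ m, 1 ≤ m → TopTransitive (T^[m])

def Syndetic (S : Set ℕ) : Prop := ∃ L : ℕ, ∀ n, 1 ≤ n → ∃ i ≤ L, n + i ∈ S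

/-- weak interpolation set of order k for the class of totally transitive systems -/
def WeakInterp (k : ℕ) (S : Set ℕ) : Prop :=
  ∀ f : S → Fin k, ∃ (X : Type) (_ : MetricSpace X) (_ : CompactSpace X) (T : X → X) (x : X)
    (F : X → ℂ), Continuous T ∧ TotallyTransitive T ∧ Dense (Set.range fun n : ℕ => T^[n] x) ∧
      Continuous F ∧ ∀ n : S, F (T^[n] x) = ((f n : ℕ) : ℂ)

lemma resid {X : Type} [MetricSpace X] [CompactSpace X] {T : X → X} {x : X} (hT : Continuous T)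
    (htt : TotallyTransitive T) (hx : Dense (Set.range fun n : ℕ => T^[n] x)) {m : ℕ}
    (hm : 1 ≤ m) : ∃ j, ∀ j', j ≤ j' → Dense (Set.range fun k : ℕ => T^[m * k + j'] x) := by
  have : Nonempty X := ⟨x⟩
  let Y : ℕ → Set X := fun j => closure (Set.range fun k : ℕ => T^[m * k + j] x)
  have h1 : (⋃ j : Fin m, Y j) = Set.univ := by
    have hc : IsClosed (⋃ j : Fin m, Y j) := isClosed_iUnion_of_finite fun j => isClosed_closure
    rw [Set.eq_univ_iff_forall]
    intro z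
    refine hc.closure_subset_iff.2 ?_ (hx z)
    rintro _ ⟨n, rfl⟩
    refine Set.mem_iUnion.2 ⟨⟨n % m, Nat.mod_lt _ hm⟩, subset_closure ⟨n / m, ?_⟩⟩
    simp only [Nat.div_add_mod]
  obtain ⟨j, hj⟩ := nonempty_interior_of_iUnion_of_closed
    (f := fun j : Fin m => Y j) (fun j => isClosed_closure) h1
  have hmap : ∀ n j : ℕ, ∀ z ∈ Y j, (T^[m])^[n] z ∈ Y j := by
    intro n j z hz
    refine map_mem_closure ((hT.iterate m).iterate n) hz ?_
    rintro _ ⟨k, rfl⟩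
    refine ⟨n + k, ?_⟩
    simp only
    rw [← Function.iterate_mul, ← Function.iterate_add_apply]
    congr 1
    ring
  have h2 : Dense (Set.range fun k : ℕ => T^[m * k + j] x) := by
    rw [← dense_closure, dense_iff_inter_open]
    intro V hV hVn
    obtain ⟨n, -, z, hz1, hz2⟩ := htt m hm _ V isOpen_interior hV hj hVn
    exact ⟨_, hz2, hmap n j z (interior_subset hz1)⟩
  have h3 : DenseRange T := by
    rw [DenseRange, dense_iff_inter_open]
    intro V hV hVn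
    obtain ⟨n, hn, z, -, hz2⟩ := htt 1 le_rfl _ V isOpen_univ hV Set.univ_nonempty hVn
    obtain ⟨n, rfl⟩ : ∃ k, n = k + 1 := ⟨n - 1, by omega⟩
    refine ⟨_, hz2, T^[n] z, ?_⟩
    rw [Function.iterate_one, Function.iterate_succ_apply']
  refine ⟨j, fun j' hj' => ?_⟩
  induction j', hj' using Nat.le_induction with
  | base => exact h2
  | succ i _ ih =>
    refine (h3.dense_image hT ih).mono ?_
    rintro _ ⟨_, ⟨k, rfl⟩, rfl⟩
    refine ⟨k, ?_⟩
    simp only
    rw [← add_assoc, Function.iterate_succ_apply']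

lemma word (l : ℕ) : ∃ (m : ℕ) (φ : ℕ → Fin 2), 1 ≤ m ∧ (∀ n k, φ (m * k + n) = φ n) ∧
    ∀ u : Fin (l + 1) → Fin 2, ∃ r, ∀ i : Fin (l + 1), φ (r + i) = u i := by
  classical
  obtain ⟨N, ⟨e⟩⟩ := Finite.exists_equiv_fin (Fin (l + 1) → Fin 2)
  have hN : 0 < N := Fin.pos (e 0)
  refine ⟨(l + 1) * N, fun n => e.symm ⟨n / (l + 1) % N, Nat.mod_lt _ hN⟩
    ⟨n % (l + 1), Nat.mod_lt _ (Nat.succ_pos l)⟩, Nat.mul_pos (Nat.succ_pos l) hN, ?_, ?_⟩
  · intro n k
    have a1 : ((l + 1) * N * k + n) / (l + 1) % N = n / (l + 1) % N := by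
      rw [mul_assoc, Nat.mul_add_div (Nat.succ_pos l), Nat.mul_add_mod]
    have a2 : ((l + 1) * N * k + n) % (l + 1) = n % (l + 1) := by
      rw [mul_assoc, Nat.mul_add_mod]
    simp only [a1, a2]
  · intro u
    refine ⟨(l + 1) * (e u), fun i => ?_⟩
    have a1 : ((l + 1) * (e u : ℕ) + i) / (l + 1) % N = e u := by
      rw [Nat.mul_add_div (Nat.succ_pos l), Nat.div_eq_of_lt i.2, add_zero,
        Nat.mod_eq_of_lt (e u).2]
    have a2 : ((l + 1) * (e u : ℕ) + i) % (l + 1) = i := by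
      rw [Nat.mul_add_mod, Nat.mod_eq_of_lt i.2]
    simp only [a1, a2, Fin.eta, Equiv.symm_apply_apply]

theorem result (S : Set ℕ) (hS : Syndetic S) : ¬ WeakInterp 2 S := by
  classical
  intro h
  obtain ⟨L, hL⟩ := hS
  obtain ⟨m, φ, hm, hφ, hu⟩ := word L
  obtain ⟨X, _, _, T, x, F, hT, htt, hx, hF, hf⟩ := h fun n => φ n
  obtain ⟨j, hj⟩ := resid hT htt hx hm
  let u : Fin (L + 1) → Fin 2 := fun i => if ‖F (T^[i] x)‖ < 1 / 2 then 1 else 0
  obtain ⟨r, hr⟩ := hu u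
  have hV : IsOpen (⋂ i : Fin (L + 1), {y | 1 / 4 < ‖F (T^[i] y) - ((u i : ℕ) : ℂ)‖}) :=
    isOpen_iInter_of_finite fun i => isOpen_lt continuous_const
      (((hF.comp (hT.iterate i)).sub continuous_const).norm)
  have hxV : x ∈ ⋂ i : Fin (L + 1), {y | 1 / 4 < ‖F (T^[i] y) - ((u i : ℕ) : ℂ)‖} := by
    refine Set.mem_iInter.2 fun i => ?_
    show 1 / 4 < ‖F (T^[i] x) - ((u i : ℕ) : ℂ)‖
    by_cases hc : ‖F (T^[i] x)‖ < 1 / 2
    · have e : ((u i : ℕ) : ℂ) = 1 := by simp only [u, if_pos hc]; simp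
      rw [e]
      have := norm_sub_norm_le (1 : ℂ) (F (T^[i] x))
      rw [norm_one, norm_sub_rev] at this
      linarith
    · have e : ((u i : ℕ) : ℂ) = 0 := by simp only [u, if_neg hc]; simp
      rw [e, sub_zero]
      linarith [not_lt.1 hc]
  have hle : j + 1 ≤ m * (j + 1) := Nat.le_mul_of_pos_left _ hm
  obtain ⟨_, ⟨k, rfl⟩, hk⟩ := (hj (m * (j + 1) + r) (by omega)).exists_mem_open hV ⟨x, hxV⟩
  obtain ⟨i, hi, hiS⟩ := hL (m * k + (m * (j + 1) + r)) (by omega)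
  have h1 := Set.mem_iInter.1 hk ⟨i, Nat.lt_succ_of_le hi⟩
  have h2 := hf ⟨_, hiS⟩
  have h3 := hr ⟨i, Nat.lt_succ_of_le hi⟩
  simp only [Set.mem_ofPred_eq] at h1 h2 h3
  rw [add_assoc, hφ, add_assoc, hφ, h3] at h2
  rw [← Function.iterate_add_apply, show i + (m * k + (m * (j + 1) + r)) =
    m * k + (m * (j + 1) + (r + i)) by ring, h2, sub_self, norm_zero] at h1
  norm_num at h1

end Pool.Agent.Results.MP_816335_an.NoSyndetic
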